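import Pool.Agent.Helper85.SAA.Final

set_option autoImplicit false

namespace Pool.Agent.Results.MP_96bd24_co.AlmostAll

open Pool.Agent.Helper83.SA Filter

/-- For every `ε > 0` almost all graphs `G` satisfy `zeta G ≤ (1 + ε) * arb G`. -/
theorem result (ε : ℝ) (hε : 0 < ε) :
    Tendsto (fun n : ℕ =>
      (Nat.card {G : SimpleGraph (Fin n) // (zeta G : ℝ) ≤ (1 + ε) * (arb G : ℝ)} : ℝ) /
        (Nat.card (SimpleGraph (Fin n)) : ℝ)) atTop (nhds 1) :=
  Pool.Agent.Helper85.SAA.main hε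

end Pool.Agent.Results.MP_96bd24_co.AlmostAll
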