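import Pool.Agent.Helper83.SA.Two

set_option autoImplicit false

namespace Pool.Agent.Results.MP_96bd24_co.ArboricityTwo

open Pool.Agent.Helper83.SA

/-- The bound `zeta G ≤ 2 * arb G` for every finite simple graph of arboricity at most two. -/
theorem result {V : Type} [Fintype V] (G : SimpleGraph V) (h : arb G ≤ 2) :
    zeta G ≤ 2 * arb G :=
  zeta_le_two_arb G h

end Pool.Agent.Results.MP_96bd24_co.ArboricityTwo
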