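import Pool.Agent.Helper83.SA.Linear

set_option autoImplicit false

namespace Pool.Agent.Results.MP_96bd24_co.LinearBound

open Pool.Agent.Helper83.SA

/-- For every finite simple graph the strong arboricity is at most twice the degeneracy, which is
at most `4 * arb G - 2`. -/
theorem result {V : Type} [Fintype V] (G : SimpleGraph V) :
    zeta G ≤ 2 * degen G ∧ 2 * degen G ≤ 4 * arb G - 2 :=
  ⟨zeta_le_two_degen G, two_degen_le G⟩

end Pool.Agent.Results.MP_96bd24_co.LinearBound
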